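import Pool.Agent.Helper13.TW.StB

set_option autoImplicit false

namespace Pool.Agent.Helper38.TW

open Set Topology Pool.Agent.Helper13.TR Pool.Agent.Helper13.TW

/-- the constant singular simplex -/
private noncomputable def csx {Y : Type} [TopologicalSpace Y] (y : Y) (n : ℕ) : Sx Y n :=
  ContinuousMap.const _ y

private lemma bd_csx {Y : Type} [TopologicalSpace Y] (y : Y) :
    bd 1 (Finsupp.single (csx y 2) (1 : ℤ)) = Finsupp.single (csx y 1) (1 : ℤ) := by
  unfold bd
  rw [Finsupp.linearCombination_single, one_smul]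
  have h : ∀ i : Fin (1 + 2), (csx y 2).comp (face 1 i) = csx y 1 := fun i => by
    ext t; rfl
  rw [Fin.sum_univ_three]
  simp only [h]
  simp

private lemma push_const {X Y : Type} [TopologicalSpace X] [TopologicalSpace Y] (y : Y)
    (c : Ch X 1) : ∃ k : Ch Y 2, bd 1 k = push (ContinuousMap.const X y) 1 c := by
  refine ⟨Finsupp.linearCombination ℤ
    (fun _ : Sx X 1 => (Finsupp.single (csx y 2) (1 : ℤ) : Ch Y 2)) c, ?_⟩
  induction c using Finsupp.induction_linear with
  | zero => simp
  | add a b ha hb => rw [map_add, map_add, map_add, ha, hb]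
  | single σ m =>
    rw [Finsupp.linearCombination_single, map_smul, bd_csx]
    unfold push
    rw [Finsupp.lmapDomain_apply, Finsupp.mapDomain_single]
    have h : (ContinuousMap.const X y).comp σ = csx y 1 := by
      ext t; rfl
    rw [h, Finsupp.smul_single, smul_eq_mul, mul_one]

private lemma push_id {X : Type} [TopologicalSpace X] (n : ℕ) (c : Ch X n) :
    push (ContinuousMap.id X) n c = c := by
  unfold push
  rw [Finsupp.lmapDomain_apply]
  have h : (fun σ : Sx X n => (ContinuousMap.id X).comp σ) = id := by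
    funext σ
    exact ContinuousMap.id_comp σ
  rw [h, Finsupp.mapDomain_id]

theorem hAC1 (hPRI : StPRI) (hPSH : StPSH) (_hSDA : StSDA) (hMON : StMON) (hJOI : StJOI) :
    StAC1 := by
  intro S _ _ D p q hD
  obtain ⟨γ, hγ, hr⟩ := hD
  refine ⟨?_, ?_⟩
  · intro z hz hbz
    let g : C(unitInterval, S) := ⟨γ, γ.continuous⟩
    have hg : Function.Injective g := hγ
    have hge : IsEmbedding g := (γ.continuous.isClosedEmbedding hγ).isEmbedding
    obtain ⟨h1, -, h3, h4, h5, -⟩ := hPSH unitInterval S S g (ContinuousMap.id S)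
    have hz' : z ∈ cin (g '' univ) 1 := by
      rw [image_univ]
      have : range g = D := hr
      rw [this]; exact hz
    obtain ⟨c', hc', hpc⟩ := h5 hge univ 1 z hz'
    have hb' : bd 0 c' = 0 := by
      apply h4 hg 0
      rw [← h1 0 c', hpc, hbz, map_zero]
    have : ContractibleSpace unitInterval :=
      (convex_Icc (0 : ℝ) 1).contractibleSpace ⟨0, by simp⟩
    obtain ⟨y, ⟨H⟩⟩ := id_nullhomotopic unitInterval
    obtain ⟨P, -, hP, -⟩ := hPRI unitInterval unitInterval _ _ H
    have hP1 := hP 0 c'
    rw [hb', map_zero, add_zero, push_id] at hP1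
    obtain ⟨k, hk⟩ := push_const y c'
    have hfin : bd 1 (k - P 1 c') = c' := by
      rw [map_sub, hk]
      have : bd (0 + 1) (P (0 + 1) c') = bd 1 (P 1 c') := rfl
      rw [← this, hP1]
      exact sub_sub_cancel _ _
    refine ⟨push g 2 (k - P 1 c'), ?_, ?_⟩
    · apply h3 D 2
      have hu : g ⁻¹' D = univ := by
        rw [eq_univ_iff_forall]
        intro t
        show γ t ∈ D
        rw [← hr]; exact mem_range_self t
      rw [hu, (hMON unitInterval).2.2.1 2]
      exact Submodule.mem_top
    · rw [h1 1, hfin, hpc]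
  · have hj : JoinedIn D p q := ⟨γ, fun t => by rw [← hr]; exact mem_range_self t⟩
    have hex : ∃ d ∈ cin D 1, bd 0 d = Finsupp.single (pt q) 1 - Finsupp.single (pt p) 1 :=
      (hJOI S D).1 p q hj
    unfold dch
    rw [dif_pos hex]
    exact Classical.choose_spec hex

end Pool.Agent.Helper38.TW
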